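import Mathlib
import Pool.Agent.N317.TS.Many

/-!
# The number of large values of the tracial states of `C*(ℤ² ⋉ ℤ[1/6])` on the powers of a translation

Let `G` be the group generated by `x ↦ 2 x`, `x ↦ 3 x`, `x ↦ x + 1` on `ℚ`, a copy of
`ℤ² ⋉ ℤ[1/6]`.  The tracial states of `C*(G)` are the normalised positive definite class functions
`φ` on `G`.  Let `g ≠ 1` be a translation in `G`.  We count the `1 ≤ n ≤ X` with `|φ (g ^ n)| ≥ δ`.

A tracial state with `φ (g) ≠ 0` has more than any power of `log X` large values.  So the regular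
trace is characterised among all tracial states by a bound `O ((log X) ^ C)`, `C` independent of
`δ`; and among the extreme ones the conditionally finite-dimensional ones are those for which the
number is not `o (X)`.  The dichotomy asked for in the problem is therefore equivalent to a gap
between `o (X)` and `O ((log X) ^ C)`.

The counting theorem on measures behind it is `MP_e27144_an.ManyLargeCoefficients`.
-/

set_option autoImplicit false

open Filter
open scoped ComplexOrder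

namespace Pool.Agent.Results.MP_81910f_an.ManyLargeValues

/-- The tracial states of `C*(G)`: the normalised positive definite class functions on `G`. -/
def TracialStates (G : Subgroup (Equiv.Perm ℚ)) : Set (G → ℂ) :=
  {ψ | ψ 1 = 1 ∧ (∀ g h : G, ψ (h * g * h⁻¹) = ψ g) ∧
    ∀ (s : Finset G) (c : G → ℂ), 0 ≤ ∑ i ∈ s, ∑ j ∈ s, star (c j) * c i * ψ (j⁻¹ * i)}

/-- `h` is a translation `x ↦ x + r`. -/
def IsTranslation {G : Subgroup (Equiv.Perm ℚ)} (h : G) : Prop :=
  ∃ r : ℚ, ∀ x : ℚ, (h : Equiv.Perm ℚ) x = x + r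

/-- The translates of `φ` by the translations span a finite-dimensional space. -/
def CondFiniteDim {G : Subgroup (Equiv.Perm ℚ)} (φ : G → ℂ) : Prop :=
  FiniteDimensional ℂ (Submodule.span ℂ {F : G → ℂ | ∃ n : G,
    IsTranslation n ∧ F = fun x => φ (n * x)})

/-- `φ` is the regular trace, the indicator function of the identity. -/
def IsRegular {G : Subgroup (Equiv.Perm ℚ)} (φ : G → ℂ) : Prop :=
  φ 1 = 1 ∧ ∀ h : G, h ≠ 1 → φ h = 0

/-- The number of the integers `1 ≤ n ≤ X` with `|φ (g ^ n)| ≥ δ`. -/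
noncomputable def largeValues {G : Subgroup (Equiv.Perm ℚ)} (φ : G → ℂ) (g : G) (δ X : ℝ) : ℕ :=
  Nat.card {n : ℕ | 1 ≤ n ∧ (n : ℝ) ≤ X ∧ δ ≤ ‖φ (g ^ n)‖}

/-- For some `C`, for every `δ > 0` the number of large values is `O ((log X) ^ C)`. -/
def PolyLogMany {G : Subgroup (Equiv.Perm ℚ)} (φ : G → ℂ) (g : G) : Prop :=
  ∃ C : ℕ, ∀ δ : ℝ, 0 < δ → ∃ B : ℝ, ∀ X : ℝ, 2 ≤ X →
    (largeValues φ g δ X : ℝ) ≤ B * Real.log X ^ C

/-- For every `δ > 0` the number of large values is `o (X)`. -/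
def DensityZero {G : Subgroup (Equiv.Perm ℚ)} (φ : G → ℂ) (g : G) : Prop :=
  ∀ δ : ℝ, 0 < δ → ∀ ε : ℝ, 0 < ε → ∃ X₀ : ℝ, ∀ X : ℝ, X₀ ≤ X →
    (largeValues φ g δ X : ℝ) ≤ ε * X

/-- **The number of large values of the tracial states.**
(1) For `k ≥ 1`, `α > 0`, `0 < θ < 1` there are `c > 0` and `X₀` such that for every tracial state
`φ` and every translation `g ≠ 1` with `|φ (g)| ≥ α`, and every `X ≥ X₀`, at least
`c (log X) ^ (4 k)` of the integers `1 ≤ n ≤ X` satisfy `|φ (g ^ n)| ≥ θ α ^ (2 k)`.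
(2) Let `g ≠ 1` be a translation. A tracial state is the regular trace if and only if its number of
large values on the powers of `g` is `O ((log X) ^ C)` for some `C` independent of `δ`.
(3) An extreme tracial state is conditionally finite-dimensional if and only if, for some `δ`, its
number of large values on the powers of `g` is not `o (X)`.
(4) Every extreme tracial state is regular or conditionally finite-dimensional if and only if for
the extreme tracial states `o (X)` large values (for every `δ`) implies `O ((log X) ^ C)`. -/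
theorem result (s2 s3 t : Equiv.Perm ℚ) (h2 : ∀ x : ℚ, s2 x = 2 * x) (h3 : ∀ x : ℚ, s3 x = 3 * x)
    (ht : ∀ x : ℚ, t x = x + 1) (G : Subgroup (Equiv.Perm ℚ))
    (hG : G = Subgroup.closure {s2, s3, t}) :
    (∀ k : ℕ, 1 ≤ k → ∀ α θ : ℝ, 0 < α → 0 < θ → θ < 1 → ∃ c X₀ : ℝ, 0 < c ∧ 1 < X₀ ∧
      ∀ φ ∈ TracialStates G, ∀ g : G, g ≠ 1 → IsTranslation g → α ≤ ‖φ g‖ → ∀ X : ℝ, X₀ ≤ X →
        c * Real.log X ^ (4 * k) ≤ largeValues φ g (θ * α ^ (2 * k)) X) ∧
    ∀ g : G, g ≠ 1 → IsTranslation g →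
      (∀ φ ∈ TracialStates G, IsRegular φ ↔ PolyLogMany φ g) ∧
      (∀ φ ∈ Set.extremePoints ℝ (TracialStates G), CondFiniteDim φ ↔ ¬ DensityZero φ g) ∧
      ((∀ φ ∈ Set.extremePoints ℝ (TracialStates G), IsRegular φ ∨ CondFiniteDim φ) ↔
        ∀ φ ∈ Set.extremePoints ℝ (TracialStates G), DensityZero φ g → PolyLogMany φ g) := by
  have hr0 : ∀ (g : G) (r : ℚ), g ≠ 1 → (∀ x : ℚ, (g : Equiv.Perm ℚ) x = x + r) → r ≠ 0 := by
    rintro g r hg1 hr rfl
    apply hg1
    apply Subtype.ext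
    apply Equiv.ext
    intro x
    rw [hr]
    simp
  refine ⟨fun k hk α θ hα h0 h1 => ?_, fun g hg1 hg => ?_⟩
  · obtain ⟨c, X₀, hc, hX, H⟩ := Pool.Agent.N317.TS.lower s2 s3 t h2 h3 ht G hG k hk α θ hα h0 h1
    refine ⟨c, X₀, hc, hX, fun φ hφ g hg1 hg hα X hX => ?_⟩
    obtain ⟨r, hr⟩ := hg
    exact H φ hφ g r (hr0 g r hg1 hr) hr hα X hX
  · obtain ⟨r, hr⟩ := hg
    have hr1 := hr0 g r hg1 hr
    have e1 : ∀ φ ∈ TracialStates G, IsRegular φ ↔ PolyLogMany φ g := fun φ hφ => by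
      have := Pool.Agent.N317.TS.regular_iff s2 s3 t h2 h3 ht G hG φ hφ g r hr1 hr
      exact (and_iff_right hφ.1).trans this
    have e2 : ∀ φ ∈ Set.extremePoints ℝ (TracialStates G),
        CondFiniteDim φ ↔ ¬ DensityZero φ g := fun φ hφ =>
      Pool.Agent.N317.TS.cfd_iff s2 s3 t h2 h3 ht G hG φ hφ g r hr1 hr
    refine ⟨e1, e2, fun h φ hφ hd => ?_, fun h φ hφ => ?_⟩
    · rcases h φ hφ with h4 | h4
      · exact (e1 φ hφ.1).1 h4
      · exact absurd hd ((e2 φ hφ).1 h4)
    · by_cases hd : DensityZero φ g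
      · exact Or.inl ((e1 φ hφ.1).2 (h φ hφ hd))
      · exact Or.inr ((e2 φ hφ).2 hd)

end Pool.Agent.Results.MP_81910f_an.ManyLargeValues
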