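import Mathlib
import Pool.Agent.N317.TS.Main

/-!
# Traces of `C*(ℤ² ⋉ ℤ[1/6])`: almost periods and covering numbers along sparse scales

Let `G` be the group generated by `x ↦ 2 x`, `x ↦ 3 x`, `x ↦ x + 1` on `ℚ`, a copy of
`ℤ² ⋉ ℤ[1/6]`.  The tracial states of `C*(G)` are the normalised positive definite class functions
`φ` on `G`.  Let `g ≠ 1` be a translation in `G`.  In the GNS space of `φ` the vectors of `g ^ i`
and `g ^ k` are at distance `(2 - 2 Re φ (g ^ (i - k))) ^ (1/2)`.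

Polynomially good almost periods of `n ↦ φ (g ^ n)` at a polynomially sparse sequence of scales, or
polynomial covering numbers of the vectors of `g ^ (s i)` at such scales, for one sequence of
exponents `s i ≤ 2 ^ (C (i + 1) ^ D)`, force the restriction of `φ` to the translations to come from
a measure on the points of finite order; for extreme `φ` this is conditional finite dimension.
The theorem on measures behind it is `Pool.Agent.N254.SP` (helper254).
-/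

set_option autoImplicit false

open Filter
open scoped ComplexOrder

namespace Pool.Agent.Results.MP_81910f_an.SparseScales

/-- The tracial states of `C*(G)`: the normalised positive definite class functions on `G`. -/
def TracialStates (G : Subgroup (Equiv.Perm ℚ)) : Set (G → ℂ) :=
  {ψ | ψ 1 = 1 ∧ (∀ g h : G, ψ (h * g * h⁻¹) = ψ g) ∧
    ∀ (s : Finset G) (c : G → ℂ), 0 ≤ ∑ i ∈ s, ∑ j ∈ s, star (c j) * c i * ψ (j⁻¹ * i)}

/-- `h` is a translation `x ↦ x + r`. -/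
def IsTranslation {G : Subgroup (Equiv.Perm ℚ)} (h : G) : Prop :=
  ∃ r : ℚ, ∀ x : ℚ, (h : Equiv.Perm ℚ) x = x + r

/-- The translates of `φ` by the translations span a finite-dimensional space. -/
def CondFiniteDim {G : Subgroup (Equiv.Perm ℚ)} (φ : G → ℂ) : Prop :=
  FiniteDimensional ℂ (Submodule.span ℂ {F : G → ℂ | ∃ n : G,
    IsTranslation n ∧ F = fun x => φ (n * x)})

/-- Almost periods along a sparse sequence of scales, for `v n = φ (g ^ n)`: for some `κ > 0`, some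
increasing `N_k` and some `1 ≤ n_k ≤ 2 ^ N_k` the series `∑ N_(k + 1) ^ κ (1 - Re v (n_k))`
converges. -/
def SparseScales (v : ℕ → ℂ) : Prop :=
  ∃ κ : ℝ, 0 < κ ∧ ∃ N n : ℕ → ℕ, StrictMono N ∧ (∀ k, 1 ≤ n k ∧ n k ≤ 2 ^ N k) ∧
    Summable (fun k : ℕ => (N (k + 1) : ℝ) ^ κ * (1 - (v (n k)).re))

/-- Almost periods at one scale of every block `[N, N ^ C]`: for some `C ≥ 1`, `s > 0` and all large
`N` there are `N ≤ M ≤ N ^ C` and `1 ≤ n ≤ 2 ^ M` with `1 - Re v n ≤ M ^ (-s)`. -/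
def BlockScales (v : ℕ → ℂ) : Prop :=
  ∃ C s : ℝ, 1 ≤ C ∧ 0 < s ∧ ∀ᶠ N : ℕ in atTop, ∃ M : ℕ, N ≤ M ∧ (M : ℝ) ≤ (N : ℝ) ^ C ∧
    ∃ n : ℕ, 1 ≤ n ∧ n ≤ 2 ^ M ∧ 1 - (v n).re ≤ (M : ℝ) ^ (-s)

/-- Polynomial covering numbers at one scale of every block `[ε₀ ^ C, ε₀]`, along one sequence of
exponents: for some `C ≥ 1`, `D > 0` and some increasing `s i ≤ 2 ^ (C (i + 1) ^ D)`, for every
`0 < ε₀ ≤ 1` there are `ε₀ ^ C ≤ ε ≤ ε₀` and a partition of the indices `i` into at most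
`C ε ^ (-D)` parts such that the vectors of `g ^ (s i)` and `g ^ (s k)` are at distance at most `ε`
for `i`, `k` in the same part. -/
def BlockCovers (v : ℕ → ℂ) : Prop :=
  ∃ C D : ℝ, 1 ≤ C ∧ 0 < D ∧ ∃ s : ℕ → ℕ, StrictMono s ∧
    (∀ i : ℕ, (s i : ℝ) ≤ 2 ^ (C * ((i : ℝ) + 1) ^ D)) ∧
    ∀ ε₀ : ℝ, 0 < ε₀ → ε₀ ≤ 1 → ∃ ε : ℝ, ε₀ ^ C ≤ ε ∧ ε ≤ ε₀ ∧ ∃ m : ℕ, (m : ℝ) ≤ C * ε ^ (-D) ∧
      ∃ c : ℕ → Fin m, ∀ i k : ℕ, k < i → c i = c k → 2 - 2 * (v (s i - s k)).re ≤ ε ^ 2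

/-- **Traces and sparse scales.** Let `g ≠ 1` be a translation in `G`.
(1) Let `φ` be a tracial state, extreme or not, such that `n ↦ φ (g ^ n)` has one of the three
properties `SparseScales`, `BlockScales`, `BlockCovers`. Then for every `ε > 0` there is `q ≥ 1` with
`|φ (h ^ q) - 1| ≤ ε` for all translations `h` in `G`.
(2) For an extreme tracial state `φ` each of the three properties is equivalent to the conditional
finite dimension of `φ`. -/
theorem result (s2 s3 t : Equiv.Perm ℚ) (h2 : ∀ x : ℚ, s2 x = 2 * x) (h3 : ∀ x : ℚ, s3 x = 3 * x)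
    (ht : ∀ x : ℚ, t x = x + 1) (G : Subgroup (Equiv.Perm ℚ))
    (hG : G = Subgroup.closure {s2, s3, t}) (g : G) (hg1 : g ≠ 1) (hg : IsTranslation g) :
    (∀ φ ∈ TracialStates G, (SparseScales (fun n => φ (g ^ n)) ∨ BlockScales (fun n => φ (g ^ n)) ∨
        BlockCovers (fun n => φ (g ^ n))) →
      ∀ ε : ℝ, 0 < ε → ∃ q : ℕ, 1 ≤ q ∧ ∀ h : G, IsTranslation h → ‖φ (h ^ q) - 1‖ ≤ ε) ∧
    ∀ φ ∈ Set.extremePoints ℝ (TracialStates G),
      List.TFAE [CondFiniteDim φ, SparseScales (fun n => φ (g ^ n)),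
        BlockScales (fun n => φ (g ^ n)), BlockCovers (fun n => φ (g ^ n))] := by
  obtain ⟨r, hr⟩ := hg
  have hr0 : r ≠ 0 := by
    rintro rfl
    apply hg1
    apply Subtype.ext
    apply Equiv.ext
    intro x
    rw [hr]
    simp
  refine ⟨fun φ hφ h => ?_, fun φ hφ => ?_⟩
  · exact (Pool.Agent.N317.TS.main s2 s3 t h2 h3 ht G hG g r hr0 hr φ hφ).1 h
  · exact (Pool.Agent.N317.TS.main s2 s3 t h2 h3 ht G hG g r hr0 hr φ hφ.1).2 hφ

end Pool.Agent.Results.MP_81910f_an.SparseScales
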