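import Pool.Agent.N276.TT.Trace

/-!
# Three-term rigidity for the tracial states of `C*(ℤ² ⋉ ℤ[1/6])`

Let `G` be the group generated by `x ↦ 2 x`, `x ↦ 3 x`, `x ↦ x + 1` on `ℚ`, a copy of
`ℤ² ⋉ ℤ[1/6]`.  The tracial states of `C*(G)` are the normalised positive definite class functions
on `G` (the set `T`).  Let `u` be the translation by `1`.

A sequence `n_0, n_1, ...` of integers reproduces `φ` from `ψ` by three terms if, for every integer
`m`, the values `ψ (u ^ (m n_i))`, `ψ (u ^ (m (n_i - n_j)))`, `ψ (u ^ (m (n_i + n_j - n_k)))` all tend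
to `φ (u ^ m)`, as `i → ∞` first, then `j → ∞`, then `k → ∞` (`Three`), and by sums if
`ψ (u ^ (m (n_{i_1} + ... + n_{i_r})))` tends to `φ (u ^ m)` as `min (i_1 < ... < i_r) → ∞`, for every
`r` (`Sums`).
-/

set_option autoImplicit false

open Filter
open scoped ComplexOrder

namespace Pool.Agent.Results.MP_81910f_an.ThreeTermRigidity

/-- The sequence `n` reproduces the values `c m` from the values `a m` by three terms: the limits of
`a (m n_i)` (as `i → ∞`), of `a (m (n_i - n_j))` (as `i → ∞`, then `j → ∞`) and of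
`a (m (n_i + n_j - n_k))` (as `i → ∞`, then `j → ∞`, then `k → ∞`) are `c m`, for every `m`. -/
def Three (a c : ℤ → ℂ) (n : ℕ → ℤ) : Prop :=
  ∀ m : ℤ, ∀ ε : ℝ, 0 < ε →
    (∀ᶠ i in atTop, ‖a (m * n i) - c m‖ ≤ ε) ∧
    (∀ᶠ j in atTop, ∀ᶠ i in atTop, ‖a (m * (n i - n j)) - c m‖ ≤ ε) ∧
    (∀ᶠ k in atTop, ∀ᶠ j in atTop, ∀ᶠ i in atTop, ‖a (m * (n i + n j - n k)) - c m‖ ≤ ε)

/-- The sequence `n` reproduces the values `c m` from the values `a m` by sums: for every `r ≥ 1`,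
`a (m (n_{i_1} + ... + n_{i_r}))` tends to `c m` as the least of the `r` different indices tends to
infinity, for every `m`. -/
def Sums (a c : ℤ → ℂ) (n : ℕ → ℤ) : Prop :=
  ∀ m : ℤ, ∀ r : ℕ, 0 < r → ∀ ε : ℝ, 0 < ε → ∃ N : ℕ, ∀ B : Finset ℕ, B.card = r →
    (∀ i ∈ B, N ≤ i) → ‖a (m * ∑ i ∈ B, n i) - c m‖ ≤ ε

/-- **Three-term rigidity.**

(1) Let `φ` be a tracial state of `C*(G)`, extreme or not, which is reproduced by three terms, or by
sums, from some tracial state `ψ` and some sequence of integers.  On the powers of `u`, `φ` is a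
mixture of the indicator functions of the subgroups of `ℤ`: there are weights `w_d ≥ 0` with
`φ (u ^ m) = ∑_{d | m} w_d` for all integers `m` (`d = 0` divides only `0`).  If `φ` is extreme, then
`φ` is the regular trace or `φ (g) = 1` for all translations `g`.

(2) An extreme tracial state which is not conditionally finite-dimensional is the regular trace if and
only if it is reproduced by three terms from some tracial state and some sequence.

(3) Conversely the regular trace and the tracial states which are `1` on the translations are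
reproduced, from themselves, both by three terms and by sums, with `n_i = 2 ^ i`. -/
theorem result (s2 s3 t : Equiv.Perm ℚ) (hs2 : ∀ x : ℚ, s2 x = 2 * x) (hs3 : ∀ x : ℚ, s3 x = 3 * x)
    (ht : ∀ x : ℚ, t x = x + 1) (G : Subgroup (Equiv.Perm ℚ))
    (hG : G = Subgroup.closure {s2, s3, t}) (T : Set (G → ℂ))
    (hT : T = {ψ : G → ℂ | ψ 1 = 1 ∧ (∀ g h : G, ψ (h * g * h⁻¹) = ψ g) ∧
        ∀ (s : Finset G) (c : G → ℂ), 0 ≤ ∑ i ∈ s, ∑ j ∈ s, star (c j) * c i * ψ (j⁻¹ * i)})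
    (u : G) (hu : (u : Equiv.Perm ℚ) = t) :
    (∀ φ ∈ T, ∀ ψ ∈ T, ∀ n : ℕ → ℤ,
      Three (fun m => ψ (u ^ m)) (fun m => φ (u ^ m)) n ∨
        Sums (fun m => ψ (u ^ m)) (fun m => φ (u ^ m)) n →
      (∃ w : ℕ → ℝ, (∀ d, 0 ≤ w d) ∧
        ∀ m : ℤ, HasSum (fun d : ℕ => if (d : ℤ) ∣ m then (w d : ℂ) else 0) (φ (u ^ m))) ∧
      (φ ∈ Set.extremePoints ℝ T → φ = Set.indicator ({1} : Set G) (fun _ => (1 : ℂ)) ∨
        ∀ g : G, (∃ r : ℚ, ∀ x : ℚ, (g : Equiv.Perm ℚ) x = x + r) → φ g = 1)) ∧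
    (∀ φ ∈ Set.extremePoints ℝ T,
      ¬ FiniteDimensional ℂ (Submodule.span ℂ {F : G → ℂ | ∃ n : G,
          (∃ r : ℚ, ∀ x : ℚ, (n : Equiv.Perm ℚ) x = x + r) ∧ F = fun x => φ (n * x)}) →
      (φ = Set.indicator ({1} : Set G) (fun _ => (1 : ℂ)) ↔
        ∃ ψ ∈ T, ∃ n : ℕ → ℤ, Three (fun m => ψ (u ^ m)) (fun m => φ (u ^ m)) n)) ∧
    (∀ φ ∈ T, (φ = Set.indicator ({1} : Set G) (fun _ => (1 : ℂ)) ∨
        ∀ g : G, (∃ r : ℚ, ∀ x : ℚ, (g : Equiv.Perm ℚ) x = x + r) → φ g = 1) →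
      Three (fun m => φ (u ^ m)) (fun m => φ (u ^ m)) (fun i => 2 ^ i) ∧
        Sums (fun m => φ (u ^ m)) (fun m => φ (u ^ m)) (fun i => 2 ^ i)) := by
  have hfin : ∀ φ ∈ T, (∀ g : G, (∃ r : ℚ, ∀ x : ℚ, (g : Equiv.Perm ℚ) x = x + r) → φ g = 1) →
      FiniteDimensional ℂ (Submodule.span ℂ {F : G → ℂ | ∃ n : G,
          (∃ r : ℚ, ∀ x : ℚ, (n : Equiv.Perm ℚ) x = x + r) ∧ F = fun x => φ (n * x)}) := by
    intro φ hφ h
    rw [hT] at hφ
    obtain ⟨h1, h2, h3⟩ := hφ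
    exact Pool.Agent.N276.TT.fd_of_one s2 s3 t hs2 hs3 ht G hG φ h1 h2 h3 h
  have hconv : ∀ φ : G → ℂ, (φ = Set.indicator ({1} : Set G) (fun _ => (1 : ℂ)) ∨
        ∀ g : G, (∃ r : ℚ, ∀ x : ℚ, (g : Equiv.Perm ℚ) x = x + r) → φ g = 1) →
      Three (fun m => φ (u ^ m)) (fun m => φ (u ^ m)) (fun i => 2 ^ i) ∧
        Sums (fun m => φ (u ^ m)) (fun m => φ (u ^ m)) (fun i => 2 ^ i) := by
    intro φ h
    refine Pool.Agent.N276.TT.converse t ht G u hu φ (h.imp id fun h m => ?_)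
    refine h _ ⟨m, fun x => ?_⟩
    rw [Pool.Agent.R481.TraceFS.zpow_apply (r := 1) (fun x => by rw [hu, ht]), mul_one]
  refine ⟨fun φ hφ ψ hψ n h => ?_, fun φ hφ hfd => ⟨fun h => ?_, ?_⟩, fun φ _ h => hconv φ h⟩
  · exact Pool.Agent.N276.TT.main s2 s3 t hs2 hs3 ht G hG T hT u hu φ ψ hφ hψ n h
  · exact ⟨φ, hφ.1, fun i => 2 ^ i, (hconv φ (Or.inl h)).1⟩
  · rintro ⟨ψ, hψ, n, h⟩
    rcases (Pool.Agent.N276.TT.main s2 s3 t hs2 hs3 ht G hG T hT u hu φ ψ hφ.1 hψ n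
      (Or.inl h)).2 hφ with h1 | h1
    · exact h1
    · exact absurd (hfin φ hφ.1 h1) hfd

end Pool.Agent.Results.MP_81910f_an.ThreeTermRigidity
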